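import Pool.Agent.Helper50.Tm.Goals

/-!
TM-NORMP: the norm map on the Weil restriction.
-/

open CategoryTheory AlgebraicGeometry Limits TensorProduct MonoidalCategory
open scoped Obj

namespace Pool.Agent.Helper30.Tm

open Pool.Agent.Helper40.Nm (specOver homGroup specialFibre)
open Pool.Agent.Helper50.Tm

section push

variable {M N C D A : Type} [CommRing M] [CommRing N] [CommRing C] [CommRing D] [CommRing A]
  [Algebra M N] [Algebra M C] [Algebra N D] [Algebra C D] [Algebra M D] [IsScalarTower M N D]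
  [IsScalarTower M C D] [Algebra.IsPushout M N C D] [Algebra M A]

theorem push_ex (f : N →ₐ[M] A) (g : C →ₐ[M] A) :
    ∃ h : D →ₐ[M] A, (∀ n, h (algebraMap N D n) = f n) ∧ (∀ c, h (algebraMap C D c) = g c) :=
  ⟨Algebra.pushoutDesc D f g (fun _ _ => mul_comm _ _),
    fun n => Algebra.pushoutDesc_left D f g _ n, fun c => Algebra.pushoutDesc_right D f g _ c⟩

theorem push_ext (h h' : D →ₐ[M] A) (h1 : ∀ n, h (algebraMap N D n) = h' (algebraMap N D n))
    (h2 : ∀ c, h (algebraMap C D c) = h' (algebraMap C D c)) (x : D) : h x = h' x := by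
  have e : h = h' := by
    apply Algebra.IsPushout.algHom_ext (S := N) (R' := C)
    · exact AlgHom.ext h2
    · exact AlgHom.ext h1
  rw [e]

/-- the homomorphism over `N` -/
theorem push_exN [Algebra N A] [IsScalarTower M N A] (g : C →ₐ[M] A) :
    ∃ h : D →ₐ[N] A, ∀ c, h (algebraMap C D c) = g c := by
  obtain ⟨h, h1, h2⟩ := push_ex (D := D) (IsScalarTower.toAlgHom M N A) g
  exact ⟨{ h.toRingHom with commutes' := h1 }, h2⟩

/-- the homomorphism over `C` -/
theorem push_exC [Algebra C A] [IsScalarTower M C A] (f : N →ₐ[M] A) :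
    ∃ h : D →ₐ[C] A, ∀ n, h (algebraMap N D n) = f n := by
  obtain ⟨h, h1, h2⟩ := push_ex (D := D) f (IsScalarTower.toAlgHom M C A)
  exact ⟨{ h.toRingHom with commutes' := h2 }, h1⟩

end push

theorem sec_symm_apply {K R M : Type} [Field K] [CommRing R] [Field M] [Algebra K M] [Algebra R M]
    {X : Over (Spec (CommRingCat.of K))} [GrpObj X] (𝒢 : NeronModel K R M X) (s : Pts 𝒢.G R) :
    (sec 𝒢).symm s = gen 𝒢 (C := M) (s.map (Algebra.ofId R M)) := by
  symm
  rw [← sec_eq_iff]
  exact (sec 𝒢).apply_symm_apply s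

theorem map_prod_pts {K A A' : Type} [Field K] [CommRing A] [Algebra K A] [CommRing A']
    [Algebra K A'] {X : Over (Spec (CommRingCat.of K))} [GrpObj X] [IsCommMonObj X]
    {ι : Type} (s : Finset ι) (x : ι → Pts X A) (f : A →ₐ[K] A') :
    (∏ i ∈ s, x i).map f = ∏ i ∈ s, (x i).map f :=
  map_prod (Pts.mapHom (G := X) f) x s

theorem gNORMP (hDESC : DESC) : NORMP := by
  intro K R M S N _ _ _ _ _ _ _ _ _ _ _ _ _ _ _ _ _ _ _ X _ _ 𝒢 ℋ B W _ _ _ _ _ u j C D
    _ _ _ _ _ _ _ _ _ _ _ _ _ _ _ _ _ _ _ _ _ _ _ _ t ht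
  classical
  -- the Galois action on `D`
  have hδ : ∀ γ : N ≃ₐ[M] N, ∃ h : D →ₐ[C] D, ∀ n, h (algebraMap N D n) = algebraMap N D (γ n) :=
    fun γ => push_exC ((IsScalarTower.toAlgHom M N D).comp (γ : N →ₐ[M] N))
  choose δ hδ using hδ
  have hδmul : ∀ γ γ' : N ≃ₐ[M] N, (δ γ').comp (δ γ) = δ (γ' * γ) := by
    intro γ γ'
    apply AlgHom.ext
    intro x
    refine push_ext (M := M) (N := N) (C := C) (((δ γ').comp (δ γ)).restrictScalars M)
      ((δ (γ' * γ)).restrictScalars M) ?_ ?_ x
    · intro n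
      change δ γ' (δ γ _) = δ (γ' * γ) _
      rw [hδ, hδ, hδ]
      rfl
    · intro c
      change δ γ' (δ γ _) = δ (γ' * γ) _
      rw [AlgHom.commutes, AlgHom.commutes, AlgHom.commutes]
  set a : Pts ℋ.G D := (j.map u).map t with ha
  set z₀ : Pts X D := gen ℋ a with hz₀
  set z : Pts X D := ∏ γ : N ≃ₐ[M] N, z₀.map ((δ γ).restrictScalars K) with hz
  have hinv : ∀ γ, z.map ((δ γ).restrictScalars K) = z := by
    intro γ'
    rw [hz, map_prod_pts]
    rw [← Fintype.prod_equiv (Equiv.mulLeft γ')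
      (fun γ => (z₀.map ((δ γ).restrictScalars K)).map ((δ γ').restrictScalars K))
      (fun γ => z₀.map ((δ γ).restrictScalars K))]
    intro γ
    rw [← Pts.map_comp]
    congr 1
    rw [Equiv.coe_mulLeft, ← hδmul γ γ']
    rfl
  obtain ⟨y, hy, -⟩ := hDESC K M N C D X δ hδ z hinv
  obtain ⟨v, hv⟩ := (neron_affine 𝒢 (C := C) W).2 y
  dsimp only at hv
  refine ⟨v, fun w => ?_⟩
  -- the homomorphisms `c` and `d`
  obtain ⟨c, hc⟩ : ∃ c : C →ₐ[M] M, ∀ x, c (algebraMap W C x) = algebraMap R M (w x) :=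
    push_exN (M := R) (N := M) (C := W) (D := C) ((Algebra.ofId R M).comp w)
  obtain ⟨d, hd⟩ : ∃ d : D →ₐ[N] N, ∀ x, d (algebraMap C D x) = algebraMap M N (c x) :=
    push_exN (M := M) (N := N) (C := C) (D := D) ((Algebra.ofId M N).comp c)
  have hdγ : ∀ (γ : N ≃ₐ[M] N) (x : D), d (δ γ x) = γ (d x) := by
    intro γ x
    refine push_ext (M := M) (N := N) (C := C)
      ((d.restrictScalars M).comp ((δ γ).restrictScalars M))
      ((γ : N →ₐ[M] N).comp (d.restrictScalars M)) ?_ ?_ x
    · intro n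
      change d (δ γ _) = γ (d _)
      rw [hδ]
      have h1 : ∀ n : N, d (algebraMap N D n) = n := fun n => d.commutes n
      rw [h1, h1]
    · intro x
      change d (δ γ _) = γ (d _)
      rw [AlgHom.commutes, hd, AlgEquiv.commutes]
  -- the left hand side
  have e1 : (sec 𝒢).symm (v.map w) = y.map (c.restrictScalars K) := by
    rw [sec_symm_apply, ← hv, ← gen_map 𝒢 c (c.restrictScalars R) (c.restrictScalars K)
      (fun _ => rfl) (fun _ => rfl), ← Pts.map_comp, ← Pts.map_comp]
    congr 2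
    apply AlgHom.ext
    intro x
    exact (hc x).symm
  have e2 : (y.map (c.restrictScalars K)).map (IsScalarTower.toAlgHom K M N) =
      z.map (d.restrictScalars K) := by
    rw [← hy, ← Pts.map_comp, ← Pts.map_comp]
    congr 1
    apply AlgHom.ext
    intro x
    exact (hd x).symm
  -- the right hand side
  have e3 : (sec ℋ).symm (j.map (weilPt u w)) = z₀.map (d.restrictScalars K) := by
    rw [sec_symm_apply, hz₀, ← gen_map ℋ d (d.restrictScalars S) (d.restrictScalars K)
      (fun _ => rfl) (fun _ => rfl), ha, ← Pts.map_comp, ← Pts.map_comp, ← Pts.map_comp]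
    congr 2
    have e4 : (Algebra.ofId S N).comp ((Algebra.TensorProduct.rid R S S).toAlgHom.comp
        (Algebra.TensorProduct.map (AlgHom.id S S) w)) = (d.restrictScalars S).comp t := by
      apply Algebra.TensorProduct.ext
      · exact Subsingleton.elim _ _
      · apply AlgHom.ext
        intro x
        change algebraMap S N ((Algebra.TensorProduct.rid R S S)
          ((Algebra.TensorProduct.map (AlgHom.id S S) w) (1 ⊗ₜ[R] x))) = d (t (1 ⊗ₜ[R] x))
        rw [ht, hd, hc, Algebra.TensorProduct.map_tmul, Algebra.TensorProduct.rid_tmul,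
          ← IsScalarTower.algebraMap_apply R M N, Algebra.smul_def, map_mul,
          ← IsScalarTower.algebraMap_apply R S N]
        simp
    exact congrArg (fun f => AlgHom.comp f u) e4
  rw [IsTr, e1, e2, hz, map_prod_pts]
  refine Finset.prod_congr rfl fun γ _ => ?_
  rw [e3, ← Pts.map_comp, ← Pts.map_comp]
  congr 1
  apply AlgHom.ext
  intro x
  exact hdγ γ x

end Pool.Agent.Helper30.Tm
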