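import Pool.Agent.Helper50.Tm.Goals

/-!
The packet `STK` of the tame reduction project (MP_f619a5_ag).
-/

open CategoryTheory AlgebraicGeometry Limits TensorProduct MonoidalCategory
open scoped Obj

namespace Pool.Agent.Helper30.Tm

open Pool.Agent.Helper40.Nm (specOver homGroup specialFibre)
open Pool.Agent.Helper50.Tm

/-- the algebra homomorphism to the dual numbers given by an augmentation and a linear form -/
def dualHom {k O : Type} [Field k] [CommRing O] [Algebra k O] (aug : O →ₐ[k] k) (L : O →ₗ[k] k)
    (h1 : L 1 = 0) (hL : ∀ a b, L (a * b) = aug a * L b + aug b * L a) :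
    O →ₐ[k] TrivSqZeroExt k k where
  toFun b := TrivSqZeroExt.inl (aug b) + TrivSqZeroExt.inr (L b)
  map_one' := by
    rw [h1, map_one]
    ext <;> simp
  map_mul' a b := by
    ext
    · simp
    · simp [hL, mul_comm]
  map_zero' := by
    ext <;> simp
  map_add' a b := by
    ext <;> simp
  commutes' r := by
    ext
    · simp [TrivSqZeroExt.algebraMap_eq_inl]
    · have h2 : L (algebraMap k O r) = 0 := by
        rw [Algebra.algebraMap_eq_smul_one, map_smul, h1, smul_zero]
      simp [TrivSqZeroExt.algebraMap_eq_inl, h2]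

theorem alg {k O : Type} [Field k] [CommRing O] [IsLocalRing O] [Algebra k O] (aug : O →ₐ[k] k)
    (ψ : O →ₐ[k] O) (n : ℕ) (hψ : ∀ b, aug (ψ b) = aug b)
    (H : ∀ δ : O →ₐ[k] TrivSqZeroExt k k, (∀ b, (δ b).fst = aug b) →
      ∀ b, (δ (ψ b)).snd = n * (δ b).snd) :
    (∀ b, ψ b - b ∈ IsLocalRing.maximalIdeal O) ∧
      ∀ b ∈ IsLocalRing.maximalIdeal O, ψ b - n * b ∈ IsLocalRing.maximalIdeal O ^ 2 := by
  have hm : ∀ b, b ∈ IsLocalRing.maximalIdeal O ↔ aug b = 0 := by
    intro b
    have hs : Function.Surjective aug.toRingHom := fun r => ⟨algebraMap k O r, aug.commutes r⟩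
    have hk : RingHom.ker aug.toRingHom = IsLocalRing.maximalIdeal O :=
      IsLocalRing.eq_maximalIdeal (RingHom.ker_isMaximal_of_surjective _ hs)
    rw [← hk]
    exact Iff.rfl
  refine ⟨fun b => ?_, fun b hb => ?_⟩
  · rw [hm, map_sub, hψ, sub_self]
  · by_contra hv
    set v := ψ b - n * b with hvd
    have hav : aug v = 0 := by
      have hb0 : aug b = 0 := (hm b).1 hb
      rw [hvd, map_sub, map_mul, hψ, hb0]
      simp
    let W : Submodule k O := Submodule.span k {1} ⊔
      (IsLocalRing.maximalIdeal O ^ 2).restrictScalars k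
    have hvW : v ∉ W := by
      intro hW
      obtain ⟨x, hx, y, hy, hxy⟩ := Submodule.mem_sup.1 hW
      obtain ⟨r, rfl⟩ := Submodule.mem_span_singleton.1 hx
      have hy' : y ∈ IsLocalRing.maximalIdeal O ^ 2 := hy
      have hy0 : aug y = 0 := (hm y).1 (Ideal.pow_le_self (by norm_num) hy')
      have hr : r = 0 := by
        have h := congrArg aug hxy
        rw [map_add, hy0, hav, map_smul, map_one] at h
        simpa using h
      apply hv
      rw [← hxy, hr, zero_smul, zero_add]
      exact hy'
    obtain ⟨L, hLv, hLW⟩ := Submodule.exists_le_ker_of_notMem hvW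
    have hL1 : L 1 = 0 := by
      apply hLW
      exact Submodule.mem_sup_left (Submodule.mem_span_singleton_self _)
    have hL2 : ∀ y ∈ IsLocalRing.maximalIdeal O ^ 2, L y = 0 := by
      intro y hy
      apply hLW
      exact Submodule.mem_sup_right hy
    have hLa : ∀ r : k, L (algebraMap k O r) = 0 := by
      intro r
      rw [Algebra.algebraMap_eq_smul_one, map_smul, hL1, smul_zero]
    have hLm : ∀ a b, L (a * b) = aug a * L b + aug b * L a := by
      intro a b
      have h1 : a - algebraMap k O (aug a) ∈ IsLocalRing.maximalIdeal O := by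
        rw [hm, map_sub, AlgHom.commutes]
        simp
      have h2 : b - algebraMap k O (aug b) ∈ IsLocalRing.maximalIdeal O := by
        rw [hm, map_sub, AlgHom.commutes]
        simp
      have h3 := hL2 _ (by rw [pow_two]; exact Ideal.mul_mem_mul h1 h2)
      have h4 : (a - algebraMap k O (aug a)) * (b - algebraMap k O (aug b)) =
        a * b - aug a • b - aug b • a + algebraMap k O (aug a * aug b) := by
        rw [Algebra.smul_def, Algebra.smul_def, map_mul]
        ring
      rw [h4, map_add, map_sub, map_sub, map_smul, map_smul, hLa, smul_eq_mul, smul_eq_mul] at h3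
      linear_combination h3
    have h5 := H (dualHom aug L hL1 hLm) (fun b => by simp [dualHom]) b
    have h6 : ∀ b, (dualHom aug L hL1 hLm b).snd = L b := fun b => by simp [dualHom]
    rw [h6, h6] at h5
    apply hLv
    rw [hvd, map_sub, h5, ← nsmul_eq_mul n b, map_nsmul, nsmul_eq_mul, sub_self]

theorem gSTK (hKRU : KRU) (hDUAL : DUAL) : STK := by
  intro k _ G _ hG n hn e he
  subst he
  set u : Pts G k := 1 with hu
  set e : G.left := u.left (IsLocalRing.closedPoint k) with he
  set π : G.left ⟶ G.left := (powMap G n).left with hπ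
  have hnoeth : IsLocallyNoetherian G.left := by
    have : IsLocallyNoetherian (Spec (CommRingCat.of k)) := inferInstance
    exact LocallyOfFiniteType.isLocallyNoetherian G.hom
  have hcomp : ∀ {T : Over (Spec (CommRingCat.of k))} (x : T ⟶ G), x ≫ powMap G n = x ^ n := by
    intro T x
    rw [powMap]
    refine (MonObj.comp_pow _ _ _).trans ?_
    rw [Category.comp_id]
  have hupow : u ≫ powMap G n = u := by
    rw [hcomp, hu, one_pow]
  have huπ : u.left ≫ π = u.left := by
    rw [hπ, ← Over.comp_left, hupow]
  have hπe : π e = e := by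
    rw [he, ← Scheme.Hom.comp_apply, huπ]
  let O : CommRingCat := G.left.presheaf.stalk e
  let ι : Spec O ⟶ G.left := G.left.fromSpecStalk e
  have hmono : Mono ι := inferInstance
  let s : CommRingCat.of k ⟶ O := Spec.preimage (ι ≫ G.hom)
  have hs : Spec.map s = ι ≫ G.hom := Spec.map_preimage _
  let aug0 : O ⟶ CommRingCat.of k := Scheme.stalkClosedPointTo u.left
  have haug : Spec.map aug0 ≫ ι = u.left := Scheme.Spec_stalkClosedPointTo_fromSpecStalk u.left
  have hsa : s ≫ aug0 = 𝟙 _ := by
    apply Spec.map_injective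
    rw [Spec.map_comp, hs, ← Category.assoc, haug]
    exact Over.w u
  let ψ0 : O ⟶ O := G.left.presheaf.stalkSpecializes (specializes_of_eq hπe) ≫ π.stalkMap e
  have hψ0 : Spec.map ψ0 ≫ ι = ι ≫ π := by
    rw [Spec.map_comp, Category.assoc, Scheme.SpecMap_stalkSpecializes_fromSpecStalk]
    exact Scheme.SpecMap_stalkMap_fromSpecStalk _
  have hsψ : s ≫ ψ0 = s := by
    apply Spec.map_injective
    rw [Spec.map_comp, hs, ← Category.assoc, hψ0, Category.assoc, hπ, Over.w]
  have haψ : ψ0 ≫ aug0 = aug0 := by
    apply Spec.map_injective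
    rw [← cancel_mono ι, Spec.map_comp, Category.assoc, hψ0, ← Category.assoc, haug, huπ]
  let algO : Algebra k O := s.hom.toAlgebra
  have halg : ∀ r : k, algebraMap k O r = s.hom r := fun _ => rfl
  let aug : O →ₐ[k] k := { aug0.hom with
    commutes' := fun r => by
      have h := congrArg (fun f => f.hom r) hsa
      exact h }
  let ψ : O →ₐ[k] O := { ψ0.hom with
    commutes' := fun r => by
      have h := congrArg (fun f => f.hom r) hsψ
      exact h }
  have hψaug : ∀ b, aug (ψ b) = aug b := by
    intro b
    have h := congrArg (fun f => f.hom b) haψ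
    exact h
  obtain ⟨h1, h2⟩ := alg aug ψ n hψaug (by
    intro δ hδ b
    have hsδ : s ≫ CommRingCat.ofHom δ.toRingHom =
        CommRingCat.ofHom (algebraMap k (TrivSqZeroExt k k)) := by
      apply CommRingCat.hom_ext
      apply RingHom.ext
      intro r
      exact δ.commutes r
    let x : Pts G (TrivSqZeroExt k k) := Over.homMk (U := SpecA k (TrivSqZeroExt k k)) (V := G)
      (Spec.map (CommRingCat.ofHom δ.toRingHom) ≫ ι) (by
        rw [Category.assoc, ← hs, ← Spec.map_comp]
        exact congrArg Spec.map hsδ)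
    have hx1 : x.map (TrivSqZeroExt.fstHom k k k) = 1 := by
      apply Over.OverMorphism.ext
      rw [Pts.map_left]
      change Spec.map _ ≫ (Spec.map (CommRingCat.ofHom δ.toRingHom) ≫ ι) = u.left
      rw [← Category.assoc, ← Spec.map_comp, ← haug]
      congr 2
      ext b
      exact hδ b
    let c : TrivSqZeroExt k k →ₐ[k] TrivSqZeroExt k k :=
      TrivSqZeroExt.map ((n : k) • LinearMap.id)
    have hc : ∀ a : k, c (TrivSqZeroExt.inr a) = TrivSqZeroExt.inr (n * a) := by
      intro a
      exact TrivSqZeroExt.map_inr _ _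
    have hd := hDUAL k G n x c hc hx1
    rw [← hcomp] at hd
    have hd1 := congrArg (fun y : Pts G (TrivSqZeroExt k k) => y.left) hd
    have hd2 : (Spec.map (CommRingCat.ofHom δ.toRingHom) ≫ ι) ≫ π =
      Spec.map (CommRingCat.ofHom c.toRingHom) ≫
        (Spec.map (CommRingCat.ofHom δ.toRingHom) ≫ ι) := hd1
    rw [Category.assoc, ← hψ0, ← Category.assoc, ← Category.assoc, cancel_mono, ← Spec.map_comp,
      ← Spec.map_comp] at hd2
    have hd3 := Spec.map_injective hd2
    have hd4 : δ (ψ b) = c (δ b) := congrArg (fun f => f.hom b) hd3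
    rw [hd4]
    exact TrivSqZeroExt.snd_map _ _)
  have hunit : IsUnit ((n : ℕ) : O) := by
    have h : ((n : ℕ) : O) = algebraMap k O (n : k) := (map_natCast _ _).symm
    rw [h]
    exact (IsUnit.mk0 _ hn).map _
  have hnO : IsNoetherianRing O := inferInstance
  have hinj : Function.Injective ψ0.hom :=
    hKRU O O ψ0.hom (RingEquiv.refl O) n hunit h1 h2
  have hsurj : Function.Surjective
      (G.left.presheaf.stalkSpecializes (specializes_of_eq hπe)).hom := by
    have hi : IsIso (G.left.presheaf.stalkSpecializes (specializes_of_eq hπe)) := by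
      exact (G.left.presheaf.stalkCongr (Inseparable.of_eq hπe.symm)).isIso_hom
    exact (ConcreteCategory.bijective_of_isIso
      (G.left.presheaf.stalkSpecializes (specializes_of_eq hπe))).2
  intro a b hab
  obtain ⟨a', rfl⟩ := hsurj a
  obtain ⟨b', rfl⟩ := hsurj b
  exact congrArg _ (hinj hab)

end Pool.Agent.Helper30.Tm
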